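import Pool.Agent.Q328.LS.Member
import Pool.Agent.H625R2.BallFin
import Pool.Agent.H612.PatOf

/-!
# Long and short edges on complete bipartite graphs: `∃ℝ`-completeness

The input is a complete bipartite graph whose edges are partitioned into short and long ones; the
question is whether it has a straight-line drawing in which exactly the short edges have length at
most one.  The definitions are in `Pool.Agent.Q328.LS.Defs` and `Pool.Agent.ER.Defs`.

The hardness proof reduces from the realizability of strict sign matrices by points and lines of
the plane.  A row is a vertex on one side, a column is a pair of vertices on the other side: the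
row is joined to the first one by a short edge and to the second one by a long edge if the sign is
`+`, and the other way round if the sign is `-`.  Then the bisector of the two vertices of a column
separates the rows as prescribed.  Conversely, a realization by points and lines, scaled down to a
tiny neighbourhood of the origin, is realized by nearly opposite unit circles.
-/

namespace Pool.Agent.Results.MP_24b35c_lc.CompleteBipartite

open Pool.Agent.NPC Pool.Agent.NPC.ER Pool.Agent.NPC.ER.Pat Pool.Agent.NPC.Q328.LS

theorem isPatOf : IsPatOf Sgn.patOf where
  poly := Sgn.poly_patOf Poly.id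
  wf := Sgn.patOf_wf
  sound := fun _ h => Sgn.patOf_sound h
  complete := fun _ h => Sgn.patOf_complete h

theorem sat_iff (S : List Con) : Sat S ↔ Realizable (red (matOf Sgn.patOf 0 S)) := by
  obtain ⟨m, hm⟩ := rect_matOf Sgn.patOf 0 S
  constructor
  · intro hS
    exact red_of_SRN hm (isPatOf.srn (k := 0) hS)
  · intro hS
    exact isPatOf.sat (k := 0) (SR_of_red hm hS)

theorem hard : ERHard (lang fun G : Inst => IsInst G ∧ IsCompleteBipartite G ∧ Realizable G) :=
  ERHard.of_sys (f := fun S => red (matOf Sgn.patOf 0 S)) (poly_red.comp (isPatOf.poly_matOf 0))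
    fun S => ⟨fun h => ⟨isInst_red _, isCB_red _, (sat_iff S).1 h⟩, fun h => (sat_iff S).2 h.2.2⟩

/-- **Long/short edge realizability on complete bipartite graphs is `∃ℝ`-complete** (under
polynomial-time many-one reductions); moreover every language of `∃ℝ` reduces to it by a
polynomial-time reduction all of whose outputs are complete bipartite graphs `K_{m,n}` (`m, n ≥ 1`)
with a partition of the edges into short and long ones. -/
theorem result :
    ERComplete (lang fun G : Inst => IsInst G ∧ IsCompleteBipartite G ∧ Realizable G) ∧
    ∀ L : Set (List Bool), InER L → ∃ f : List Bool → Inst, PolyTime (fun w => bits (f w)) ∧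
      (∀ w, IsInst (f w) ∧ IsCompleteBipartite (f w)) ∧ ∀ w, w ∈ L ↔ Realizable (f w) := by
  refine ⟨⟨ls_mem, hard⟩, ?_⟩
  rintro L ⟨g, hg, hL⟩
  have h1 : PC (id : List Bool → List Bool) (bits : Fm → List Bool) g :=
    H642R2.TMSim.polyTime_toPC hg
  have h2 : Poly (fun φ : Fm => red (matOf Sgn.patOf 0 (sysOf φ))) :=
    (poly_red.comp (isPatOf.poly_matOf 0)).comp (poly_sysOf Poly.id)
  have h3 : PC (id : List Bool → List Bool) (bits : Inst → List Bool)
      (fun x => red (matOf Sgn.patOf 0 (sysOf (g x)))) :=
    PC.comp (g := fun φ : Fm => red (matOf Sgn.patOf 0 (sysOf φ)))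
      (eb := (bits : Fm → List Bool)) h2 h1
  have h4 : PC (id : List Bool → List Bool) (id : List Bool → List Bool)
    (fun x => bits (red (matOf Sgn.patOf 0 (sysOf (g x))))) := h3
  exact ⟨fun x => red (matOf Sgn.patOf 0 (sysOf (g x))), PC.toPolyTime h4,
    fun w => ⟨isInst_red _, isCB_red _⟩, fun w => by rw [hL, ← sat_sysOf, sat_iff]⟩

end Pool.Agent.Results.MP_24b35c_lc.CompleteBipartite
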